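import Pool.Agent.Q49.MU.Basic

/-!
# Mu-invariants of Iwasawa cohomology: reduction to the cyclotomic character and to one representation

Fix an odd prime `p`. Let `D` be the set of all data `(K, L, T, S, Σ)` as in the problem, and let `Good d` say
that the Iwasawa cohomology group in question is `Λ`-torsion with `μ = 0`. For a number field `F` let `X F`
say that the inverse limit of the `p`-parts of the class groups of the `F_n` is finitely generated over `ℤ_p`.
Let `unit K` be the datum with `L = K`, `T = ℤ_p(1)`, the minimal set `S` and empty `Σ`. Let `T₀` be a nonzero
Galois representation over a number field `K₀` with coefficients `ℤ_p`, and for a number field `K` with an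
embedding `f` of `K₀` let `rep K f` be the datum with `L = K` and `T = T₀` (and a suitable `S`, empty `Σ`).

**Theorem.** Let `K₂` be a number field with an embedding `i` of `K₀` which contains the `p`-th roots of unity
and such that the Galois group of `K₂` acts trivially on `T₀/p`. The following are equivalent.

1. Q1 for `p`: all data are good.
2. The data `unit K` are good for all number fields `K`.
3. Iwasawa's conjecture for `p`: `X K` holds for all number fields `K`.
4. The data `rep K` are good for all finite extensions `K` of `K₂` of degree prime to `p`.

In particular the weak Leopoldt conjecture for all representations, which is a part of Q1, is a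
consequence of Iwasawa's conjecture for all number fields. Known facts (hypotheses): `mono`: the norm
map; `pext`: Iwasawa 1973, for Galois extensions of `p`-power degree; `devissage`: the cohomology group is
torsion with `μ = 0` if and only if it is finitely generated over `ℤ_p`; by Nakayama's lemma this says that
`H²_Iw(O_{L,S}, T/ϖ)` is finite. This functor is right exact on finite modules, and `T/ϖ` is a quotient of a
direct sum of copies of the module induced from `μ_p` over the field `L' = L(T/ϖ, μ_p)`, so that the condition
follows from the finiteness of `H²_Iw(O_{L',S}, μ_p)`, which is equivalent to `X L'` by Kummer theory;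
`unit`: Kummer theory; `trivial`: over fields containing `K₂`, `T₀/p` is a direct sum of copies of `μ_p`.
-/

set_option autoImplicit false

namespace Pool.Agent.Results.MP_519cc8_nt.PrimeToP

open Pool.Agent.Q49.MU

/-- The data. -/
structure Data (K₀ : Type) [Field K₀] where
  /-- the class groups -/
  X : (F : Type) → [Field F] → Prop
  /-- the data `(K, L, T, S, Σ)` -/
  D : Type
  /-- torsion with `μ = 0` -/
  Good : D → Prop
  /-- the datum for `ℤ_p(1)` over `K` -/
  unit : (K : Type) → [Field K] → D
  /-- the datum for `T₀` over `K` -/
  rep : (K : Type) → [Field K] → (K₀ →+* K) → D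

/-- The known facts. -/
structure IsData (p : ℕ) {K₀ K₂ : Type} [Field K₀] [Field K₂] (i : K₀ →+* K₂) (R : Data K₀) :
    Prop where
  mono : Mono R.X
  pext : PExt p R.X K₂
  devissage : ∀ d : R.D, ∃ (L : Type) (_ : Field L) (_ : NumberField L), R.X L → R.Good d
  unit : ∀ (K : Type) [Field K] [NumberField K], R.Good (R.unit K) → R.X K
  trivial : ∀ (K : Type) [Field K] [NumberField K] (g : K₂ →+* K), R.Good (R.rep K (g.comp i)) → R.X K

/-- **Mu-invariants of Iwasawa cohomology: exact reductions.** See the explanations above. -/
theorem result (p : ℕ) [Fact p.Prime] (K₀ K₂ : Type) [Field K₀] [Field K₂] [NumberField K₂]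
    (i : K₀ →+* K₂) (R : Data K₀) (hR : IsData p i R) :
    List.TFAE [
      ∀ d : R.D, R.Good d,
      ∀ (K : Type) [Field K] [NumberField K], R.Good (R.unit K),
      ∀ (K : Type) [Field K] [NumberField K], R.X K,
      ∀ (K : Type) [Field K] [NumberField K] [Algebra K₂ K], ¬ p ∣ Module.finrank K₂ K →
        R.Good (R.rep K ((algebraMap K₂ K).comp i))] := by
  tfae_have 1 → 2 := fun h K _ _ => h _
  tfae_have 2 → 3 := fun h K _ _ => hR.unit K (h K)
  tfae_have 3 → 1 := by
    intro h d
    obtain ⟨L, _, _, h1⟩ := hR.devissage d
    exact h1 (h L)
  tfae_have 1 → 4 := fun h K _ _ _ _ => h _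
  tfae_have 4 → 3 := fun h F _ _ => of_prime_to_p p hR.mono K₂ hR.pext
    (fun K _ _ _ hK => hR.trivial K (algebraMap K₂ K) (h K hK)) F
  tfae_finish

end Pool.Agent.Results.MP_519cc8_nt.PrimeToP
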