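import Pool.Agent.Results.MP_519cc8_nt.ResidualVectors
import Pool.Agent.Q60.MU.RealCM

/-!
# Q1 over a field with a real place: vectors fixed by complex conjugation
-/

set_option autoImplicit false

namespace Pool.Agent.Results.MP_519cc8_nt.RealVectors

open Pool.Agent.Q60.MU Pool.Agent.Results.MP_519cc8_nt.ResidualVectors

/-- Q1 for `ℤ_p` over the fields `K(v)`, `v ≠ 0` a vector fixed by `c` in a simple representation -/
def FixedVectors {p : ℕ} [Fact p.Prime] {𝔾 : Type} [Group 𝔾] [TopologicalSpace 𝔾]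
    (T : Setting p 𝔾) (c : 𝔾) : Prop :=
  ∀ (S : Type) [AddCommGroup S] [Module (ZMod p) S] [Module.Finite (ZMod p) S]
    (σ : Representation (ZMod p) 𝔾 S), IsSimple σ → Smooth σ →
    ∀ v : S, v ≠ 0 → σ c v = v → T.Triv (stab σ v)

/-- Q1 for `ℤ_p` over the fields `K(v)` of degree prime to `p`, `v ≠ 0` a vector in a simple
representation on which `c` acts as `-1` -/
def OddVectors {p : ℕ} [Fact p.Prime] {𝔾 : Type} [Group 𝔾] [TopologicalSpace 𝔾]
    (T : Setting p 𝔾) (c : 𝔾) : Prop :=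
  ∀ (S : Type) [AddCommGroup S] [Module (ZMod p) S] [Module.Finite (ZMod p) S]
    (σ : Representation (ZMod p) 𝔾 S), IsSimple σ → Smooth σ → (∀ x, σ c x = -x) →
    ∀ v : S, v ≠ 0 → ¬ p ∣ (stab σ v).index → T.Triv (stab σ v)

theorem result (p : ℕ) [Fact p.Prime] (𝔾 : Type) [Group 𝔾] [TopologicalSpace 𝔾]
    [ContinuousMul 𝔾] (T : Setting p 𝔾) (hT : IsSetting T) (c : 𝔾) (hc : c * c = 1) :
    (∀ d, T.Good d) ↔ FixedVectors T c ∧ OddVectors T c := by
  constructor
  · intro h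
    have h2 : ∀ H : Subgroup 𝔾, IsOpen (H : Set 𝔾) → H.index ≠ 0 → T.Triv H := by
      intro H hHo hHf
      obtain ⟨d, hd⟩ := hT.induced H hHo hHf
      exact (hT.shapiro H hHo hHf).2 ((hT.good d _ _ hd).1 (h d))
    constructor
    · intro S _ _ _ σ _ hs v _ _
      obtain ⟨h3, h4⟩ := stab_open hs v
      exact h2 _ h3 h4
    · intro S _ _ _ σ _ hs _ v _ _
      obtain ⟨h3, h4⟩ := stab_open hs v
      exact h2 _ h3 h4
  · rintro ⟨h1, h2⟩ d
    obtain ⟨V, i1, i2, ρ, i3, i4, hs, hR⟩ := hT.res d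
    refine (hT.good d V ρ hR).2 (A_of_factors hT _ V ρ rfl hs ?_)
    intro S _ _ _ σ hσ hsub
    have hnt : Nontrivial S := hσ.1
    have hss := smooth_subquotient hsub hs
    rcases dichotomy' hc σ with ⟨v, hv, hcv⟩ | hneg
    · exact ⟨v, hv, h1 S σ hσ hss v hv hcv⟩
    · obtain ⟨v, hv, hp⟩ := exists_prime_vector hss
      exact ⟨v, hv, h2 S σ hσ hss hneg v hv hp⟩

end Pool.Agent.Results.MP_519cc8_nt.RealVectors
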