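import Pool.Agent.Q60.MU.Shapiro

/-!
# Q1 for `T` and the fields generated by vectors of the residual representation

`p` is an odd prime, `K` a number field, `𝔾 = G_K`, and `L = K` in Q1.  `Setting` collects the
predicates of the problem, `IsSetting` the known facts about them.
-/

set_option autoImplicit false

namespace Pool.Agent.Results.MP_519cc8_nt.ResidualVectors

open Pool.Agent.Q60.MU

/-- The residual representation is generated by one vector `v`: Q1 for `T` follows from Q1 for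
`ℤ_p` over the field `K(v)` fixed by the stabilizer of `v`. -/
def Cyclic {p : ℕ} [Fact p.Prime] {𝔾 : Type} [Group 𝔾] [TopologicalSpace 𝔾]
    (T : Setting p 𝔾) : Prop :=
  ∀ (d : T.Dat) (V : Type) [AddCommGroup V] [Module (ZMod p) V]
    (ρ : Representation (ZMod p) 𝔾 V), T.Res d V ρ → Smooth ρ →
    ∀ v : V, gen ρ v = ⊤ → T.Triv (stab ρ v) → T.Good d

/-- If each simple subquotient of the residual representation has a nonzero vector `v` with Q1
for `ℤ_p` over `K(v)`, then Q1 holds for `T`. -/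
def Criterion {p : ℕ} [Fact p.Prime] {𝔾 : Type} [Group 𝔾] [TopologicalSpace 𝔾]
    (T : Setting p 𝔾) : Prop :=
  ∀ (d : T.Dat) (V : Type) [AddCommGroup V] [Module (ZMod p) V] [Module.Finite (ZMod p) V]
    [Nontrivial V] (ρ : Representation (ZMod p) 𝔾 V), T.Res d V ρ → Smooth ρ →
    (∀ (S : Type) [AddCommGroup S] [Module (ZMod p) S] [Module.Finite (ZMod p) S]
      (σ : Representation (ZMod p) 𝔾 S), IsSimple σ → IsSubquotient σ ρ →
      ∃ v : S, v ≠ 0 ∧ T.Triv (stab σ v)) → T.Good d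

/-- Q1 for `ℤ_p` over the fields `K(v)` of degree prime to `p`, `v` a nonzero vector of a simple
representation of `G_K` over `𝔽_p`. -/
def PrimeVectors {p : ℕ} [Fact p.Prime] {𝔾 : Type} [Group 𝔾] [TopologicalSpace 𝔾]
    (T : Setting p 𝔾) : Prop :=
  ∀ (S : Type) [AddCommGroup S] [Module (ZMod p) S] [Module.Finite (ZMod p) S]
    (σ : Representation (ZMod p) 𝔾 S), IsSimple σ → Smooth σ →
    ∀ v : S, v ≠ 0 → ¬ p ∣ (stab σ v).index → T.Triv (stab σ v)

theorem smooth_subquotient {p : ℕ} [Fact p.Prime] {𝔾 : Type} [Group 𝔾] [TopologicalSpace 𝔾]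
    {V W : Type} [AddCommGroup V] [Module (ZMod p) V] [AddCommGroup W] [Module (ZMod p) W]
    {σ : Representation (ZMod p) 𝔾 W} {ρ : Representation (ZMod p) 𝔾 V}
    (h : IsSubquotient σ ρ) (hs : Smooth ρ) : Smooth σ := by
  obtain ⟨K, hKo, hKf, hK⟩ := hs
  obtain ⟨U, hU, f, hf, hi⟩ := h
  refine ⟨K, hKo, hKf, fun g hg x => ?_⟩
  obtain ⟨y, rfl⟩ := hf x
  rw [← hi]
  congr 1
  exact Subtype.ext (hK g hg y)

theorem exists_prime_vector {p : ℕ} [Fact p.Prime] {𝔾 : Type} [Group 𝔾] [TopologicalSpace 𝔾]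
    {S : Type} [AddCommGroup S] [Module (ZMod p) S] [Module.Finite (ZMod p) S] [Nontrivial S]
    {σ : Representation (ZMod p) 𝔾 S} (hs : Smooth σ) :
    ∃ v : S, v ≠ 0 ∧ ¬ p ∣ (stab σ v).index := by
  obtain ⟨K, hKo, hKf, hK⟩ := hs
  have hKn : K.normalCore.Normal := Subgroup.normalCore_normal _
  have hKf' : K.normalCore.index ≠ 0 := by
    have h1 : K.FiniteIndex := ⟨hKf⟩
    have h2 : K.normalCore.FiniteIndex := K.finiteIndex_normalCore
    exact h2.index_ne_zero
  obtain ⟨v, hv, P, hP, hPp⟩ := exists_vec_P hKn hKf' σ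
    (fun g hg => hK g (K.normalCore_le hg))
  exact ⟨v, hv, fun h => hPp (h.trans (Subgroup.index_dvd_of_le hP))⟩

theorem result (p : ℕ) [Fact p.Prime] (𝔾 : Type) [Group 𝔾] [TopologicalSpace 𝔾]
    [ContinuousMul 𝔾] (T : Setting p 𝔾) (hT : IsSetting T) :
    Cyclic T ∧ Criterion T ∧
    List.TFAE [∀ d, T.Good d,
      ∀ H : Subgroup 𝔾, IsOpen (H : Set 𝔾) → H.index ≠ 0 → T.Triv H,
      PrimeVectors T] := by
  refine ⟨?_, ?_, ?_⟩
  · intro d V _ _ ρ hR hs v hv hv'
    exact (hT.good d V ρ hR).2 (A_of_vector hT hs hv hv')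
  · intro d V _ _ _ _ ρ hR hs h
    exact (hT.good d V ρ hR).2 (A_of_factors hT _ V ρ rfl hs h)
  · tfae_have 1 → 2 := by
      intro h H hHo hHf
      obtain ⟨d, hd⟩ := hT.induced H hHo hHf
      exact (hT.shapiro H hHo hHf).2 ((hT.good d _ _ hd).1 (h d))
    tfae_have 2 → 3 := by
      intro h S _ _ _ σ _ hs v _ _
      obtain ⟨h1, h2⟩ := stab_open hs v
      exact h _ h1 h2
    tfae_have 3 → 1 := by
      intro h d
      obtain ⟨V, i1, i2, ρ, i3, i4, hs, hR⟩ := hT.res d
      refine (hT.good d V ρ hR).2 (A_of_factors hT _ V ρ rfl hs ?_)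
      intro S _ _ _ σ hσ hsub
      have hnt : Nontrivial S := hσ.1
      have hss := smooth_subquotient hsub hs
      obtain ⟨v, hv, hp⟩ := exists_prime_vector hss
      exact ⟨v, hv, h S σ hσ hss v hv hp⟩
    tfae_finish

end Pool.Agent.Results.MP_519cc8_nt.ResidualVectors
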